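import Mathlib

namespace Pool.Agent.Results.MP_0aa9c3_an.Conv

open Filter Topology Set

lemma slow (d : ℕ → ℝ) (h1 : Antitone fun n => |d n|)
    (h2 : Tendsto (fun n => d (n + 1) - d n) atTop (𝓝 0)) : ∃ L, Tendsto d atTop (𝓝 L) := by
  have hb : BddBelow (range fun n => |d n|) := ⟨0, by rintro _ ⟨n, rfl⟩; exact abs_nonneg _⟩
  have h3 := tendsto_atTop_ciInf h1 hb
  set L := ⨅ n, |d n|
  have hL : ∀ n, L ≤ |d n| := fun n => ciInf_le hb n
  rcases (le_ciInf fun n => abs_nonneg (d n) : 0 ≤ L).eq_or_lt with h0 | h0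
  · exact ⟨0, tendsto_zero_iff_abs_tendsto_zero _ |>.2 (h0 ▸ h3)⟩
  obtain ⟨N, hN⟩ := eventually_atTop.1 ((Metric.tendsto_nhds.1 h2) L h0)
  simp only [Real.dist_eq, sub_zero] at hN
  rcases le_total 0 (d N) with h | h
  · refine ⟨L, h3.congr' ?_⟩
    filter_upwards [eventually_ge_atTop N] with n hn
    refine abs_of_nonneg ?_
    induction n, hn using Nat.le_induction with
    | base => exact h
    | succ n hn ih =>
      have := hL n
      have := abs_lt.1 (hN n hn)
      rw [abs_of_nonneg ih] at *
      linarith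
  · refine ⟨-L, h3.neg.congr' ?_⟩
    filter_upwards [eventually_ge_atTop N] with n hn
    rw [abs_of_nonpos, neg_neg]
    induction n, hn using Nat.le_induction with
    | base => exact h
    | succ n hn ih =>
      have := hL n
      have := abs_lt.1 (hN n hn)
      rw [abs_of_nonpos ih] at *
      linarith

lemma aux (T : ℝ → ℝ) (hT : ∀ x y, |T x - T y| ≤ |x - y|) (c : ℝ) (hc : 0 < c)
    (h : ∀ x, c ≤ x - T x) (x y : ℝ) :
    ∃ L, Tendsto (fun n => T^[n] x - T^[n] y) atTop (𝓝 L) := by
  have hm : Monotone fun x => x - T x := fun a b hab => by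
    have := abs_le.1 (hT b a)
    rw [abs_of_nonneg (sub_nonneg.2 hab)] at this
    simp only; linarith
  have hg := tendsto_atBot_ciInf hm ⟨c, by rintro _ ⟨z, rfl⟩; exact h z⟩
  have hb : ∀ z, Tendsto (fun n => T^[n] z) atTop atBot := fun z => by
    have h1 : ∀ n : ℕ, T^[n] z ≤ z + -(c * n) := fun n => by
      induction n with
      | zero => simp
      | succ n ih =>
        rw [Function.iterate_succ_apply']
        have := h (T^[n] z)
        push_cast; linarith
    exact tendsto_atBot_mono h1 (tendsto_atBot_add_const_left _ _ (tendsto_neg_atTop_atBot.comp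
      (tendsto_natCast_atTop_atTop.const_mul_atTop hc)))
  refine slow _ (antitone_nat_of_succ_le fun n => ?_) ?_
  · simp only [Function.iterate_succ_apply']; exact hT _ _
  · have := (hg.comp (hb y)).sub (hg.comp (hb x))
    rw [sub_self] at this
    refine this.congr fun n => ?_
    simp only [Function.iterate_succ_apply', Function.comp]; ring

theorem result (T : ℝ → ℝ) (hT : ∀ x y, |T x - T y| ≤ |x - y|) (v : ℝ)
    (_hv : v ∈ closure (range fun x => x - T x))
    (hmin : ∀ w ∈ closure (range fun x => x - T x), |v| ≤ |w|) (hv0 : v ≠ 0) (x y : ℝ) :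
    ∃ L, Tendsto (fun n => T^[n] x - T^[n] y) atTop (𝓝 L) := by
  have hc : 0 < |v| := abs_pos.2 hv0
  have h1 : ∀ z, |v| ≤ |z - T z| := fun z => hmin _ (subset_closure ⟨z, rfl⟩)
  have hcont : Continuous fun x => x - T x := continuous_id.sub
    (LipschitzWith.continuous (K := 1) (LipschitzWith.of_dist_le_mul fun a b => by
      simpa [Real.dist_eq] using hT a b))
  have hsign : ∀ a b, 0 ≤ a - T a → 0 ≤ b - T b := fun a b ha => by
    by_contra hb
    obtain ⟨z, hz⟩ := intermediate_value_univ b a hcont ⟨(not_le.1 hb).le, ha⟩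
    have := h1 z
    simp only at hz
    rw [hz, abs_zero] at this
    linarith
  by_cases h : 0 ≤ 0 - T 0
  · exact aux T hT _ hc (fun z => by have := h1 z; rwa [abs_of_nonneg (hsign 0 z h)] at this) x y
  · have e : ∀ n z, (fun w => -T (-w))^[n] (-z) = -T^[n] z := fun n z => by
      induction n with
      | zero => rfl
      | succ n ih => rw [Function.iterate_succ_apply', Function.iterate_succ_apply', ih, neg_neg]
    obtain ⟨L, hL⟩ := aux (fun w => -T (-w)) (fun a b => by
      have := hT (-b) (-a)
      convert this using 2 <;> ring) _ hc (fun z => by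
      have h2 := h1 (-z)
      rw [abs_of_neg (not_le.1 fun h3 => h (hsign _ 0 h3))] at h2
      linarith) (-y) (-x)
    refine ⟨L, hL.congr fun n => ?_⟩
    rw [e, e]; ring

end Pool.Agent.Results.MP_0aa9c3_an.Conv
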